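import Pool.Agent.R846.VD.G

/-!
# Almost no run of ordinates agrees with an element of a given space at a positive proportion of places

Let `0 < γ_1 ≤ γ_2 ≤ …` be the ordinates of the nontrivial zeros of the zeta function, with
multiplicity.  No hypothesis is assumed.  Fix `k` and `ρ > 0`, however small; then there is
`δ = δ(k, ρ) > 0` with the following property.  Let `L` be large, `L log L ≤ log N`, and let
`V ⊆ ℝ^{L+1}` be *any* real vector space of dimension at most `k` (it may depend on `L` and `N`), for
example a space of solutions of `L + 1 - k` independent linear relations between `L + 1` consecutive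
ordinates, or the span of `k` other runs of ordinates.  Then for almost all `n ≤ N` every `w ∈ V`
satisfies `|γ_{n+j} - w_j| > δ √(log L) / log γ_n` (that is, `δ √(log L) / 2π` mean spacings) for all
but `ρ L` of the places `0 ≤ j ≤ L`.  In particular `γ_{n+j} = w_j` for at most `ρ L` places `j`.

Idea of the proof.  If the set `J` of the places of agreement has density `ρ`, then there are a
distance `a` (from a finite list of multiples of a small multiple of `L`) and a positive proportion
of the `j` with `j, j + a ∈ J`; averaging over the offsets one is led to the normalised fluctuations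
`Z_k(t)` of the number of zeros of windows of length `a` at `K` equidistant positions, where `Z(t)`
would be near a given `κ`-dimensional space at a positive proportion of the `k`.  By the mixed normal
law for two far positions (`Pool.Agent.R321.QA.cfA`, `cfB`, helper321), for *all* weights `|w_k| ≤ 1`
the average of `w_k (e^{i ξ Z_k(t)} - e^{-ξ²/2})` is small for most `t`.  If the above happened for a
positive proportion of the `t`, one could choose among these a large bounded number `t_1, …, t_m`,
one after the other (the weights being products of the characters at the heights already chosen),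
such that the values `(Z_k(t_1), …, Z_k(t_m))`, as `k` varies, are distributed almost like
independent normal variables.  A positive proportion of the `k` are places of agreement for the same
`κ + 1` of them, and there some combination `∑ θ_i Z_k(t_i)` with `∑ θ_i² = 1` is small, which
contradicts the normal law.
-/

set_option autoImplicit false

namespace Pool.Agent.Results.MP_0ec205_nt.AgreementWithSubspaces

/-- multiplicity of `s` as a zero of the Riemann zeta function (order of vanishing at `s`) -/
noncomputable def zmult (s : ℂ) : ℕ := analyticOrderNatAt riemannZeta s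

/-- the number of nontrivial zeros of `ζ` with ordinate in `(0, t]`, with multiplicity -/
noncomputable def NZ (t : ℝ) : ℕ :=
  ∑ᶠ s ∈ {s : ℂ | riemannZeta s = 0 ∧ 0 < s.re ∧ s.re < 1 ∧ 0 < s.im ∧ s.im ≤ t}, zmult s

/-- for `n ≥ 1`: the `n`-th positive ordinate `γ n` of a nontrivial zero of `ζ`, the ordinates being
listed in nondecreasing order and repeated according to multiplicity -/
noncomputable def γ (n : ℕ) : ℝ := sInf {t : ℝ | n ≤ NZ t}

/-- **Theorem** (no hypothesis).  For all `k` and `ρ > 0` there is `δ > 0`, and for every `η > 0`
there is `L₀`, such that for all `L ≥ L₀`, all `N ≥ 1` with `L log L ≤ log N` and every linear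
subspace `V` of `ℝ^{L+1}` of dimension at most `k`, at most `η N` of the indices `n ≤ N` are such that
some `w ∈ V` satisfies `|γ_{n+j} - w_j| ≤ δ √(log L) / log γ_n` for at least `ρ L` of the places
`0 ≤ j ≤ L`. -/
theorem result (k : ℕ) (ρ : ℝ) (hρ : 0 < ρ) : ∃ δ : ℝ, 0 < δ ∧ ∀ η : ℝ, 0 < η → ∃ L₀ : ℕ,
    ∀ L : ℕ, L₀ ≤ L → ∀ N : ℕ, 1 ≤ N → L * Real.log L ≤ Real.log N →
    ∀ V : Submodule ℝ (Fin (L + 1) → ℝ), Module.finrank ℝ V ≤ k →
    ({n : ℕ | 1 ≤ n ∧ n ≤ N ∧ ∃ w ∈ V, ρ * L ≤
      (({j : Fin (L + 1) | |γ (n + j) - w j| ≤ δ * Real.sqrt (Real.log L) / Real.log (γ n)} :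
        Set (Fin (L + 1))).ncard : ℝ)}.ncard : ℝ) ≤ η * N :=
  Pool.Agent.R846.VD.dens_sub k hρ

end Pool.Agent.Results.MP_0ec205_nt.AgreementWithSubspaces
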