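import Pool.Agent.R846.VS.K

/-!
# Almost no run of ordinates is near a polynomial function of given sequences

Let `0 < γ_1 ≤ γ_2 ≤ …` be the ordinates of the nontrivial zeros of the zeta function, with
multiplicity.  No hypothesis is assumed.  Fix `r`, `d` and `M`, however large, let `L` be large and
`L log L ≤ log N`, and let `y^1, …, y^r` be *any* real sequences (they may depend on `L` and `N`),
for example `y^i_j = γ_{m_i + j}` with given `m_1, …, m_r`.  Then almost no run of `L + 1` consecutive
ordinates `γ_n, …, γ_{n+L}`, `n ≤ N`, is approximated within `M √(log L)` times the mean spacing by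
`P(y^1_j, …, y^r_j)`, `0 ≤ j ≤ L`, with a polynomial `P` with real coefficients of degree at most `d`
in each variable.  The polynomial may depend on `n`.

Idea of the proof.  The sequences `P(y^1_j, …, y^r_j)` form a space of dimension at most `(d + 1)^r`,
so it suffices to show that almost no run is near a given space `V` of bounded dimension `κ`.  In
terms of heights `t` let `Z_k(t)` be the normalised fluctuations of the number of zeros of windows
of length `a = L / 2` at `K` equidistant positions.  By the mixed normal
law for two far positions (`Pool.Agent.R321.QA.cfA`, `cfB`, helper321), for *all* weights `|w_k| ≤ 1`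
the average of `w_k (e^{i ξ Z_k(t)} - e^{-ξ²/2})` is small for most `t`.  If the vectors `Z(t)` were
near a fixed `κ`-dimensional space for a positive proportion of the `t`, one could choose among
these `t_0, …, t_κ`, one after the other (the weights being products of the characters at the heights
already chosen), such that the values `(Z_k(t_0), …, Z_k(t_κ))`, as `k` varies, are distributed almost
like `κ + 1` independent normal variables.  But some combination `∑ θ_i Z(t_i)` with `max |θ_i| = 1`
is bounded, a contradiction.  Finally one passes from heights to indices `n` by means of the shifts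
of the sequences, over which the theorem is uniform.
-/

set_option autoImplicit false

namespace Pool.Agent.Results.MP_ec260d_nt.FarFromPolynomials

/-- multiplicity of `s` as a zero of the Riemann zeta function (order of vanishing at `s`) -/
noncomputable def zmult (s : ℂ) : ℕ := analyticOrderNatAt riemannZeta s

/-- the number of nontrivial zeros of `ζ` with ordinate in `(0, t]`, with multiplicity -/
noncomputable def NZ (t : ℝ) : ℕ :=
  ∑ᶠ s ∈ {s : ℂ | riemannZeta s = 0 ∧ 0 < s.re ∧ s.re < 1 ∧ 0 < s.im ∧ s.im ≤ t}, zmult s

/-- for `n ≥ 1`: the `n`-th positive ordinate `γ n` of a nontrivial zero of `ζ`, the ordinates being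
listed in nondecreasing order and repeated according to multiplicity -/
noncomputable def γ (n : ℕ) : ℝ := sInf {t : ℝ | n ≤ NZ t}

/-- **Theorem** (no hypothesis).  For all `r`, `d`, `M` and `η > 0` there is `L₀` such that for all
`L ≥ L₀` and all `N ≥ 1` with `L log L ≤ log N`, and for all real sequences `y^1, …, y^r`, at most
`η N` of the indices `n ≤ N` are such that some polynomial `P` in `r` variables with real
coefficients, of degree at most `d` in each variable, satisfies
`|γ_{n+j} - P(y^1_j, …, y^r_j)| ≤ M √(log L) / log γ_n` for all `0 ≤ j ≤ L`. -/
theorem result (r d : ℕ) (M η : ℝ) (hη : 0 < η) : ∃ L₀ : ℕ, ∀ L : ℕ, L₀ ≤ L → ∀ N : ℕ, 1 ≤ N →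
    L * Real.log L ≤ Real.log N → ∀ y : Fin r → ℕ → ℝ,
    ({n : ℕ | 1 ≤ n ∧ n ≤ N ∧ ∃ P : MvPolynomial (Fin r) ℝ, (∀ i, P.degreeOf i ≤ d) ∧
      ∀ j ≤ L, |γ (n + j) - MvPolynomial.eval (fun i => y i j) P| ≤
        M * Real.sqrt (Real.log L) / Real.log (γ n)}.ncard : ℝ) ≤ η * N :=
  Pool.Agent.R846.VS.vs_poly r d M hη

end Pool.Agent.Results.MP_ec260d_nt.FarFromPolynomials
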